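import Pool.Agent.N105.LT.Defs

/-!
Project LG (helper105), leaf I1 (helper505): the integral of `1 / (cosh (x - a) cosh (x - b))`.
-/

set_option autoImplicit false

open MeasureTheory Set Filter Topology Real

namespace Pool.Agent.N505.LG.I1

open LTd Pool.Agent.N105.LT

theorem cosh_ge (y : ℝ) : (1 + y ^ 2) / 2 ≤ Real.cosh y := by
  have h1 : Real.cosh y = Real.cosh (y / 2) ^ 2 + Real.sinh (y / 2) ^ 2 := by
    rw [← Real.cosh_two_mul]
    congr 1
    ring
  have h2 := Real.cosh_sq (y / 2)
  have h3 : |y / 2| ≤ |Real.sinh (y / 2)| := by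
    rw [Real.abs_sinh]
    exact Real.self_le_sinh_iff.2 (abs_nonneg _)
  have h4 : (y / 2) ^ 2 ≤ Real.sinh (y / 2) ^ 2 := sq_le_sq.2 h3
  rw [h1, h2]
  nlinarith

theorem inv_cosh_le (y : ℝ) : (Real.cosh y)⁻¹ ≤ 2 * (1 + y ^ 2)⁻¹ := by
  have h1 := cosh_ge y
  have h2 : (0 : ℝ) < 1 + y ^ 2 := by positivity
  calc (Real.cosh y)⁻¹ ≤ ((1 + y ^ 2) / 2)⁻¹ := by
        apply inv_anti₀ (by positivity) h1
    _ = 2 * (1 + y ^ 2)⁻¹ := by rw [inv_div]; ring

theorem integ (a b : ℝ) :
    Integrable (fun x : ℝ => (Real.cosh (x - a))⁻¹ * (Real.cosh (x - b))⁻¹) := by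
  have h1 : Integrable (fun x : ℝ => 2 * (1 + (x - a) ^ 2)⁻¹) :=
    (integrable_inv_one_add_sq.comp_sub_right a).const_mul 2
  refine h1.mono' ?_ ?_
  · refine Continuous.aestronglyMeasurable ?_
    refine Continuous.mul ?_ ?_
    · exact (Real.continuous_cosh.comp (continuous_id.sub continuous_const)).inv₀
        (fun x => (Real.cosh_pos _).ne')
    · exact (Real.continuous_cosh.comp (continuous_id.sub continuous_const)).inv₀
        (fun x => (Real.cosh_pos _).ne')
  · refine Filter.Eventually.of_forall fun x => ?_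
    have h2 : (Real.cosh (x - b))⁻¹ ≤ 1 := inv_le_one_of_one_le₀ (Real.one_le_cosh _)
    have h3 : 0 < (Real.cosh (x - b))⁻¹ := inv_pos.2 (Real.cosh_pos _)
    have h4 : 0 < (Real.cosh (x - a))⁻¹ := inv_pos.2 (Real.cosh_pos _)
    rw [Real.norm_eq_abs, abs_of_pos (mul_pos h4 h3)]
    calc (Real.cosh (x - a))⁻¹ * (Real.cosh (x - b))⁻¹ ≤ (Real.cosh (x - a))⁻¹ * 1 :=
          mul_le_mul_of_nonneg_left h2 h4.le
      _ ≤ _ := by rw [mul_one]; exact inv_cosh_le _

theorem lc : Tendsto (fun y : ℝ => Real.log (Real.cosh y) - y) atTop (𝓝 (Real.log (1 / 2))) := by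
  have h1 : (fun y : ℝ => Real.log (Real.cosh y) - y) =
      fun y => Real.log ((1 + Real.exp (-(2 * y))) / 2) := by
    funext y
    have h2 : (1 + Real.exp (-(2 * y))) / 2 = Real.cosh y * Real.exp (-y) := by
      rw [Real.cosh_eq]
      have e1 : Real.exp y * Real.exp (-y) = 1 := by rw [← Real.exp_add]; simp
      have e2 : Real.exp (-(2 * y)) = Real.exp (-y) * Real.exp (-y) := by
        rw [← Real.exp_add]; congr 1; ring
      rw [e2]
      linear_combination (-1 / 2) * e1
    rw [h2, Real.log_mul (Real.cosh_pos y).ne' (Real.exp_pos _).ne', Real.log_exp]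
    ring
  rw [h1]
  have h3 : Tendsto (fun y : ℝ => (1 + Real.exp (-(2 * y))) / 2) atTop (𝓝 ((1 + 0) / 2)) := by
    refine Tendsto.div_const (Tendsto.const_add 1 ?_) 2
    refine Real.tendsto_exp_atBot.comp ?_
    refine tendsto_neg_atTop_atBot.comp ?_
    exact tendsto_id.const_mul_atTop (by norm_num)
  rw [add_zero] at h3
  exact ((Real.continuousAt_log (by norm_num)).tendsto).comp h3

theorem lim_top (a b : ℝ) : Tendsto (fun x : ℝ => Real.log (Real.cosh (x - a)) -
    Real.log (Real.cosh (x - b))) atTop (𝓝 (b - a)) := by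
  have h1 : ∀ c : ℝ, Tendsto (fun x : ℝ => Real.log (Real.cosh (x - c)) - (x - c)) atTop
      (𝓝 (Real.log (1 / 2))) := fun c =>
    lc.comp (tendsto_atTop_add_const_right atTop (-c) tendsto_id)
  have h2 := ((h1 a).sub (h1 b)).add_const (b - a)
  rw [sub_self, zero_add] at h2
  refine h2.congr fun x => ?_
  ring

theorem lim_bot (a b : ℝ) : Tendsto (fun x : ℝ => Real.log (Real.cosh (x - a)) -
    Real.log (Real.cosh (x - b))) atBot (𝓝 (a - b)) := by
  have h1 := (lim_top (-a) (-b)).comp tendsto_neg_atBot_atTop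
  have h2 : -b - -a = a - b := by ring
  rw [h2] at h1
  refine h1.congr fun x => ?_
  show Real.log (Real.cosh (-x - -a)) - Real.log (Real.cosh (-x - -b)) = _
  have e : ∀ c : ℝ, Real.cosh (-x - -c) = Real.cosh (x - c) := by
    intro c
    rw [← Real.cosh_neg (x - c)]
    congr 1
    ring
  rw [e, e]

theorem i1 (a b : ℝ) : Integrable (fun x : ℝ => (cosh (x - a))⁻¹ * (cosh (x - b))⁻¹) ∧
    ∫ x : ℝ, (cosh (x - a))⁻¹ * (cosh (x - b))⁻¹ = 2 * kk (a - b) := by
  refine ⟨integ a b, ?_⟩
  have hsub : ∀ c x : ℝ, HasDerivAt (fun y : ℝ => y - c) 1 x := fun c x =>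
    (hasDerivAt_id x).sub_const c
  by_cases hab : a = b
  · subst hab
    have hd : ∀ x : ℝ, HasDerivAt (fun y : ℝ => Real.sinh (y - a) / Real.cosh (y - a))
        ((cosh (x - a))⁻¹ * (cosh (x - a))⁻¹) x := by
      intro x
      have h1 := (hsub a x).sinh.div (hsub a x).cosh (Real.cosh_pos _).ne'
      refine h1.congr_deriv ?_
      have h2 := Real.cosh_sq (x - a)
      have h3 := (Real.cosh_pos (x - a)).ne'
      simp only [mul_one]
      field_simp
      linear_combination h2
    have hform : (fun y : ℝ => Real.sinh (y - a) / Real.cosh (y - a)) =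
        fun y => 1 - 2 * (Real.exp (-(2 * (y - a))) / (1 + Real.exp (-(2 * (y - a))))) := by
      funext y
      obtain ⟨z, hz⟩ : ∃ z, z = y - a := ⟨_, rfl⟩
      rw [← hz, Real.sinh_eq, Real.cosh_eq]
      have e1 : Real.exp z * Real.exp (-z) = 1 := by rw [← Real.exp_add]; simp
      have e2 : Real.exp (-(2 * z)) = Real.exp (-z) * Real.exp (-z) := by
        rw [← Real.exp_add]; congr 1; ring
      rw [e2]
      have p1 := Real.exp_pos z
      have p2 := Real.exp_pos (-z)
      have p3 : Real.exp z + Real.exp (-z) ≠ 0 := by positivity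
      have p4 : 1 + Real.exp (-z) * Real.exp (-z) ≠ 0 := by positivity
      field_simp
      linear_combination (2 * Real.exp (-z)) * e1
    have htop : Tendsto (fun y : ℝ => Real.sinh (y - a) / Real.cosh (y - a)) atTop (𝓝 1) := by
      rw [hform]
      have h3 : Tendsto (fun y : ℝ => Real.exp (-(2 * (y - a)))) atTop (𝓝 0) := by
        refine Real.tendsto_exp_atBot.comp ?_
        refine tendsto_neg_atTop_atBot.comp ?_
        exact (tendsto_atTop_add_const_right atTop (-a) tendsto_id).const_mul_atTop (by norm_num)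
      have h4 := ((h3.div (h3.const_add 1) (by norm_num)).const_mul 2).const_sub 1
      simpa using h4
    have hbot : Tendsto (fun y : ℝ => Real.sinh (y - a) / Real.cosh (y - a)) atBot (𝓝 (-1)) := by
      have h0 : Tendsto (fun y : ℝ => 2 * a - y) atBot atTop := by
        have := tendsto_atTop_add_const_left atBot (2 * a) tendsto_neg_atBot_atTop
        exact this
      have h1 := (htop.comp h0).neg
      refine h1.congr fun x => ?_
      show -(Real.sinh (2 * a - x - a) / Real.cosh (2 * a - x - a)) = _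
      have e : 2 * a - x - a = -(x - a) := by ring
      rw [e, Real.sinh_neg, Real.cosh_neg, neg_div, neg_neg]
    rw [integral_of_hasDerivAt_of_tendsto hd (integ a a) hbot htop]
    unfold kk
    rw [if_pos (sub_self a)]
    norm_num
  · have hs : Real.sinh (b - a) ≠ 0 := by
      intro h0
      rw [Real.sinh_eq_zero] at h0
      exact hab (by linarith)
    have hd : ∀ x : ℝ, HasDerivAt (fun y : ℝ => (Real.log (Real.cosh (y - a)) -
        Real.log (Real.cosh (y - b))) / Real.sinh (b - a))
        ((cosh (x - a))⁻¹ * (cosh (x - b))⁻¹) x := by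
      intro x
      have hl : ∀ c : ℝ, HasDerivAt (fun y : ℝ => Real.log (Real.cosh (y - c)))
          (Real.sinh (x - c) / Real.cosh (x - c)) x := by
        intro c
        have h1 := (hsub c x).cosh.log (Real.cosh_pos _).ne'
        refine h1.congr_deriv ?_
        simp only [mul_one]
      refine (((hl a).sub (hl b)).div_const _).congr_deriv ?_
      have h2 : Real.sinh (b - a) = Real.sinh (x - a) * Real.cosh (x - b) -
          Real.cosh (x - a) * Real.sinh (x - b) := by
        rw [← Real.sinh_sub]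
        congr 1
        ring
      have h3 := (Real.cosh_pos (x - a)).ne'
      have h4 := (Real.cosh_pos (x - b)).ne'
      rw [div_sub_div _ _ h3 h4, ← h2]
      field_simp
    rw [integral_of_hasDerivAt_of_tendsto hd (integ a b) ((lim_bot a b).div_const _)
      ((lim_top a b).div_const _)]
    unfold kk
    rw [if_neg (sub_ne_zero.2 hab)]
    have e : a - b = -(b - a) := by ring
    rw [e, Real.sinh_neg, neg_div_neg_eq]
    ring

end Pool.Agent.N505.LG.I1
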